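import Pool.Agent.L0h93.AV.L38
import Pool.Agent.L0h45.AV.Stm4

/-! Module L8e of project AV (helper45): the number of tuples modulo `8`, all `a` (after
`Pool.Agent.L0h93.AV.L38`). -/

set_option autoImplicit false

namespace Pool.Agent.L0h6.AV

open Finset
open Pool.Agent.N874.PP (Tup chA chB)
open Pool.Agent.L0h45.AV
open Pool.Agent.L0h93.AV.L38

noncomputable def ok8e : Bool := (List.range 8).all fun a => (List.range 8).all fun b =>
  (Nat.beq (Nat.mod b 2) 0) || Nat.ble (tot sol 8 a b) 256

theorem k8e : ok8e = true := by decide +kernel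

theorem t_L8e : S_L8e := by
  intro a b hb
  have hk := k8e
  unfold ok8e at hk
  rw [List.all_eq_true] at hk
  have h1 := hk (a % 8).toNat (List.mem_range.2 (by omega))
  rw [List.all_eq_true] at h1
  have h2 := h1 (b % 8).toNat (List.mem_range.2 (by omega))
  rw [Bool.or_eq_true] at h2
  have hb' : b % 2 = 1 := Int.odd_iff.1 hb
  have h3 : ¬ Nat.beq (Nat.mod (b % 8).toNat 2) 0 = true := by
    rw [nb]
    show ¬ (b % 8).toNat % 2 = 0
    omega
  have h4 := h2.resolve_left h3
  rw [Nat.ble_eq] at h4
  refine le_trans (card_le sol 8 (a % 8).toNat (b % 8).toNat (by norm_num) _ ?_ ?_) h4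
  · rintro x y c z w hx - - - hw ⟨-, h5, h6, h7⟩
    exact lf_one _ 8 _ _ x y c z w (by norm_num) a b (by omega) (by omega) h5 h6
      (sol_ok x y c z w hx hw h7)
  · intro B hB
    exact hB.1

end Pool.Agent.L0h6.AV
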