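import Pool.Agent.L0h24.AV.LOC
import Pool.Agent.L0h45.AV.Stm4

/-! Module LOCe of project AV (helper45): the tuples modulo `MZ Z`, all `a` (after
`Pool.Agent.L0h24.AV.LOC`). -/

set_option autoImplicit false
set_option linter.all false

open Finset Filter Topology
open scoped Classical

namespace Pool.Agent.L0h6.AV

open Pool.Agent.N874.PP (Tup chA chB gq tau Ev)
open Pool.Agent.N922.PQ (dsc)
open Pool.Agent.L0h45.LR (Cgr)
open Pool.Agent.L0h45.AV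
open Pool.Agent.L0h24.AV (chA_cgr chB_cgr dvd_cgr sol8_cgr)

/-- the number of solutions modulo `24 * ∏ p ^ 2` -/
theorem count_fin (hCRT : S_CRT) (hLP : S_LP2) (h3 : S_L3) (h8 : S_L8e) (a b : ℤ) (h3a : ¬ (3 : ℤ) ∣ a)
    (hb : Odd b) (S : Finset ℕ) :
    (∀ p ∈ S, p.Prime ∧ 5 ≤ p ∧ ¬ (p : ℤ) ^ 2 ∣ dsc a b) →
    {B | B ∈ Bo (24 * ∏ p ∈ S, p ^ 2) ∧ ((24 * ∏ p ∈ S, p ^ 2 : ℕ) : ℤ) ∣ chA B - a ∧
      ((24 * ∏ p ∈ S, p ^ 2 : ℕ) : ℤ) ∣ chB B - b ∧ Sol8 B}.ncard ≤ 6144 * ∏ p ∈ S, (p ^ 3 * (p ^ 3 - p)) := by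
  induction S using Finset.induction_on with
  | empty =>
    intro _
    have e : (24 * ∏ p ∈ (∅ : Finset ℕ), p ^ 2 : ℕ) = 8 * 3 := by simp
    rw [e]
    have h := hCRT 8 3 (fun B => (8 : ℤ) ∣ chA B - a ∧ (8 : ℤ) ∣ chB B - b ∧ Sol8 B)
      (fun B => (3 : ℤ) ∣ chA B - a ∧ (3 : ℤ) ∣ chB B - b) (by norm_num) (by norm_num) (by norm_num)
      (fun B B' h => by
        have e1 := dvd_cgr (a := a) (chA_cgr h)
        have e2 := dvd_cgr (a := b) (chB_cgr h)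
        have e3 := sol8_cgr (dvd_refl 8) h
        exact and_congr e1 (and_congr e2 e3))
      (fun B B' h => by
        have e1 := dvd_cgr (a := a) (chA_cgr h)
        have e2 := dvd_cgr (a := b) (chB_cgr h)
        exact and_congr e1 e2)
    have hset : {B | B ∈ Bo (8 * 3) ∧ ((8 * 3 : ℕ) : ℤ) ∣ chA B - a ∧ ((8 * 3 : ℕ) : ℤ) ∣ chB B - b ∧ Sol8 B} =
        {B | B ∈ Bo (8 * 3) ∧ ((8 : ℤ) ∣ chA B - a ∧ (8 : ℤ) ∣ chB B - b ∧ Sol8 B) ∧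
          ((3 : ℤ) ∣ chA B - a ∧ (3 : ℤ) ∣ chB B - b)} := by
      ext B
      simp only [Set.mem_setOf_eq]
      constructor
      · rintro ⟨h1, h2, h3, h4⟩
        push_cast at h2 h3
        exact ⟨h1, ⟨by omega, by omega, h4⟩, by omega, by omega⟩
      · rintro ⟨h1, ⟨h2, h3, h4⟩, h5, h6⟩
        push_cast
        exact ⟨h1, by omega, by omega, h4⟩
    rw [hset, h, Finset.prod_empty]
    calc _ ≤ 256 * 24 := Nat.mul_le_mul (h8 a b hb) (h3 a b h3a)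
      _ = _ := by norm_num
  | insert p S hp ih =>
    intro hS
    have hpS := hS p (mem_insert_self p S)
    have ih' := ih fun q hq => hS q (mem_insert_of_mem hq)
    obtain ⟨m, hm⟩ : ∃ m : ℕ, m = 24 * ∏ q ∈ S, q ^ 2 := ⟨_, rfl⟩
    rw [← hm] at ih'
    have e : (24 * ∏ q ∈ insert p S, q ^ 2 : ℕ) = m * p ^ 2 := by
      rw [Finset.prod_insert hp, hm]
      ring
    rw [e]
    have hm1 : 1 ≤ m := by
      rw [hm]
      have : 0 < ∏ q ∈ S, q ^ 2 := Finset.prod_pos fun q hq => pow_pos (hS q (mem_insert_of_mem hq)).1.pos 2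
      omega
    have hp1 : 1 ≤ p ^ 2 := pow_pos hpS.1.pos 2
    have hco : Nat.Coprime m p := by
      rw [Nat.coprime_comm, hpS.1.coprime_iff_not_dvd, hm, hpS.1.dvd_mul]
      rintro (h | h)
      · have h1 : p ∣ 2 ^ 3 * 3 := h
        rcases (hpS.1.dvd_mul).1 h1 with h2 | h2
        · have := Nat.le_of_dvd (by norm_num) (hpS.1.dvd_of_dvd_pow h2)
          have := hpS.2.1
          omega
        · have := Nat.le_of_dvd (by norm_num) h2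
          have := hpS.2.1
          omega
      · obtain ⟨q, hq, h1⟩ := (hpS.1.prime.dvd_finset_prod_iff _).1 h
        have h2 := hpS.1.dvd_of_dvd_pow h1
        have h3 := (Nat.prime_dvd_prime_iff_eq hpS.1 (hS q (mem_insert_of_mem hq)).1).1 h2
        exact hp (h3 ▸ hq)
    have hco2 : Nat.Coprime m (p ^ 2) := Nat.Coprime.pow_right 2 hco
    have h8m : 8 ∣ m := by
      rw [hm]
      exact ⟨3 * ∏ q ∈ S, q ^ 2, by ring⟩
    have h := hCRT m (p ^ 2) (fun B => (m : ℤ) ∣ chA B - a ∧ (m : ℤ) ∣ chB B - b ∧ Sol8 B)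
      (fun B => ((p ^ 2 : ℕ) : ℤ) ∣ chA B - a ∧ ((p ^ 2 : ℕ) : ℤ) ∣ chB B - b) hm1 hp1 hco2
      (fun B B' h => and_congr (dvd_cgr (chA_cgr h)) (and_congr (dvd_cgr (chB_cgr h)) (sol8_cgr h8m h)))
      (fun B B' h => and_congr (dvd_cgr (chA_cgr h)) (dvd_cgr (chB_cgr h)))
    have hcoz : IsCoprime (m : ℤ) ((p ^ 2 : ℕ) : ℤ) := Nat.isCoprime_iff_coprime.2 hco2
    have hdv : ∀ u : ℤ, ((m * p ^ 2 : ℕ) : ℤ) ∣ u ↔ (m : ℤ) ∣ u ∧ ((p ^ 2 : ℕ) : ℤ) ∣ u := by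
      intro u
      rw [Nat.cast_mul]
      exact ⟨fun h => ⟨(dvd_mul_right _ _).trans h, (dvd_mul_left _ _).trans h⟩, fun h => hcoz.mul_dvd h.1 h.2⟩
    have hset : {B | B ∈ Bo (m * p ^ 2) ∧ ((m * p ^ 2 : ℕ) : ℤ) ∣ chA B - a ∧ ((m * p ^ 2 : ℕ) : ℤ) ∣ chB B - b ∧
          Sol8 B} =
        {B | B ∈ Bo (m * p ^ 2) ∧ ((m : ℤ) ∣ chA B - a ∧ (m : ℤ) ∣ chB B - b ∧ Sol8 B) ∧
          (((p ^ 2 : ℕ) : ℤ) ∣ chA B - a ∧ ((p ^ 2 : ℕ) : ℤ) ∣ chB B - b)} := by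
      ext B
      simp only [Set.mem_setOf_eq, hdv]
      tauto
    rw [hset, h, Finset.prod_insert hp]
    have h2 : {B | B ∈ Bo (p ^ 2) ∧ (((p ^ 2 : ℕ) : ℤ) ∣ chA B - a ∧ ((p ^ 2 : ℕ) : ℤ) ∣ chB B - b)}.ncard ≤
        p ^ 3 * (p ^ 3 - p) := by
      have := hLP p hpS.1 hpS.2.1 a b hpS.2.2
      rw [Nat.cast_pow]
      exact this
    calc _ ≤ (6144 * ∏ q ∈ S, (q ^ 3 * (q ^ 3 - q))) * (p ^ 3 * (p ^ 3 - p)) := Nat.mul_le_mul ih' h2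
      _ = _ := by ring

theorem t_LOCe : S_CRT → S_LP2 → S_L3 → S_L8e → S_LOCe := by
  intro hCRT hLP h3 h8 Z hZ a b h3a hal
  have h := count_fin hCRT hLP h3 h8 a b h3a hal.1 ((Icc 5 Z).filter Nat.Prime) (fun p hp => by
    rw [mem_filter, mem_Icc] at hp
    exact ⟨hp.2, hp.1.1, hal.2 p hp.2 hp.1.1 hp.1.2⟩)
  have hMZ : (24 * ∏ p ∈ (Icc 5 Z).filter Nat.Prime, p ^ 2 : ℕ) = MZ Z := rfl
  rw [hMZ] at h
  have h' : (({B | B ∈ Bo (MZ Z) ∧ (MZ Z : ℤ) ∣ chA B - a ∧ (MZ Z : ℤ) ∣ chB B - b ∧ Sol8 B}.ncard : ℕ) : ℝ) ≤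
      ((6144 * ∏ p ∈ (Icc 5 Z).filter Nat.Prime, (p ^ 3 * (p ^ 3 - p)) : ℕ) : ℝ) := by exact_mod_cast h
  refine h'.trans (le_of_eq ?_)
  have e1 : (Icc 3 Z).filter Nat.Prime = insert 3 ((Icc 5 Z).filter Nat.Prime) := by
    ext p
    rw [mem_insert, mem_filter, mem_filter, mem_Icc, mem_Icc]
    constructor
    · rintro ⟨⟨h1, h2⟩, h4⟩
      by_cases h5 : p = 3
      · exact Or.inl h5
      · right
        have h6 : p ≠ 4 := by
          rintro rfl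
          exact absurd h4 (by norm_num)
        exact ⟨⟨by omega, h2⟩, h4⟩
    · rintro (rfl | ⟨⟨h1, h2⟩, h4⟩)
      · exact ⟨⟨le_rfl, hZ⟩, Nat.prime_three⟩
      · exact ⟨⟨by omega, h2⟩, h4⟩
  rw [e1, Finset.prod_insert (by simp), ← hMZ]
  push_cast
  rw [mul_pow, ← Finset.prod_pow]
  have e2 : ∀ p ∈ (Icc 5 Z).filter Nat.Prime, ((p : ℝ) ^ 3 * ((p ^ 3 - p : ℕ) : ℝ)) =
      ((p : ℝ) ^ 2) ^ 3 * (1 - 1 / (p : ℝ) ^ 2) := by
    intro p hp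
    rw [mem_filter, mem_Icc] at hp
    have h1 : p ≤ p ^ 3 := Nat.le_self_pow (by norm_num) p
    rw [Nat.cast_sub h1]
    have h2 : (p : ℝ) ≠ 0 := by
      have := hp.1.1
      have : p ≠ 0 := by omega
      exact_mod_cast this
    push_cast
    field_simp
  rw [Finset.prod_congr rfl e2, Finset.prod_mul_distrib]
  ring

end Pool.Agent.L0h6.AV
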